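import Mathlib

set_option autoImplicit false

/-!
# Minimal strongly biconnected digraphs have at most `2n - 3` arcs (`n ≥ 3`)

A strongly biconnected digraph contains a spanning strongly biconnected subdigraph that is built from
a directed cycle of length at least three by adding open ears (directed paths between two different
vertices of the part built so far) each of which brings at least one new vertex.
-/

namespace Pool.Agent.Results.MP_5e4462_co.MinimalArcs

open Relation

universe u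

variable {V : Type u} [DecidableEq V]

/-- adjacency in the underlying undirected graph -/
def Adj (E : Finset (V × V)) (x y : V) : Prop := (x, y) ∈ E ∨ (y, x) ∈ E

/-- any two vertices of `X` are joined by a walk in the underlying undirected graph all of whose
vertices are in `X` (the underlying graph induced on `X` is connected, or `X` is empty) -/
def ConnOn (E : Finset (V × V)) (X : Set V) : Prop :=
  ∀ x ∈ X, ∀ y ∈ X, ReflTransGen (fun a b => a ∈ X ∧ b ∈ X ∧ Adj E a b) x y

/-- the digraph with arc set `E` is strongly connected -/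
def StronglyConnected (E : Finset (V × V)) : Prop :=
  ∀ x y, ReflTransGen (fun a b => (a, b) ∈ E) x y

/-- strongly connected, and deleting a vertex never disconnects the underlying graph -/
def StronglyBiconnected (E : Finset (V × V)) : Prop :=
  StronglyConnected E ∧ ∀ v : V, ConnOn E {v}ᶜ

/-- minimal strongly biconnected: no arc can be removed -/
def IsMinimal (E : Finset (V × V)) : Prop :=
  StronglyBiconnected E ∧ ∀ e ∈ E, ¬ StronglyBiconnected (E.erase e)

/-! ### arcs of a list -/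

/-- the arcs of a walk given as a list of vertices -/
def arcs (L : List V) : Finset (V × V) := (L.zip L.tail).toFinset

omit [DecidableEq V] in
theorem chain_of_mem {R Q : V → V → Prop} : ∀ {L : List V}, L.IsChain R →
    (∀ a ∈ L, ∀ b ∈ L, R a b → Q a b) → L.IsChain Q
  | [], _, _ => by simp
  | [a], _, _ => by simp
  | a :: b :: L, h, h' => by
    rw [List.isChain_cons_cons] at h ⊢
    refine ⟨h' a (by simp) b (by simp) h.1, chain_of_mem h.2 ?_⟩
    intro x hx y hy
    exact h' x (List.mem_cons_of_mem _ hx) y (List.mem_cons_of_mem _ hy)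

omit [DecidableEq V] in
theorem chain_init {R : V → V → Prop} {L L' : List V} (h : L'.IsChain R) (t : List V)
    (ht : L ++ t = L') : L.IsChain R := by
  subst ht
  exact h.left_of_append

theorem arcs_chain (L : List V) : L.IsChain (fun a b => (a, b) ∈ arcs L) := by
  rw [List.isChain_iff_getElem]
  intro i hi
  rw [arcs, List.mem_toFinset, List.mem_iff_getElem]
  refine ⟨i, ?_, ?_⟩
  · rw [List.length_zip, List.length_tail]; omega
  · rw [List.getElem_zip]
    simp

theorem arcs_card (L : List V) : (arcs L).card ≤ L.length - 1 := by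
  refine (List.toFinset_card_le _).trans ?_
  rw [List.length_zip, List.length_tail]
  omega

theorem arcs_subset {E : Finset (V × V)} {L : List V} (h : L.IsChain (fun a b => (a, b) ∈ E)) :
    arcs L ⊆ E := by
  intro e he
  rw [arcs, List.mem_toFinset, List.mem_iff_getElem] at he
  obtain ⟨i, hi, rfl⟩ := he
  rw [List.length_zip, List.length_tail] at hi
  rw [List.isChain_iff_getElem] at h
  have := h i (by omega)
  rw [List.getElem_zip]
  simpa using this

omit [DecidableEq V] in
/-- a walk gives a path -/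
theorem exists_nodup {R : V → V → Prop} {a b : V} (h : ReflTransGen R a b) :
    ∃ l : List V, (a :: l).IsChain R ∧ (a :: l).getLast (by simp) = b ∧ (a :: l).Nodup := by
  classical
  refine ReflTransGen.head_induction_on h ?_ ?_
  · exact ⟨[], by simp, rfl, by simp⟩
  · intro c d hcd _ ih
    obtain ⟨l, h1, h2, h3⟩ := ih
    by_cases hc : c ∈ d :: l
    · obtain ⟨l1, l2, h4⟩ := List.append_of_mem hc
      refine ⟨l2, ?_, ?_, ?_⟩
      · rw [h4] at h1
        exact h1.right_of_append
      · rw [← h2]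
        simp only [h4]
        rw [List.getLast_append_of_ne_nil]
      · rw [h4] at h3
        exact h3.of_append_right
    · refine ⟨d :: l, List.isChain_cons_cons.2 ⟨hcd, h1⟩, ?_, List.nodup_cons.2 ⟨hc, h3⟩⟩
      rw [List.getLast_cons_cons]
      exact h2

omit [DecidableEq V] in
theorem rtg_first_last {R : V → V → Prop} {a b : V} {l : List V}
    (h : (a :: (l ++ [b])).IsChain R) : ReflTransGen R a b :=
  List.relationReflTransGen_of_exists_isChain_cons (l ++ [b]) h (by simp)

/-! ### adding an ear -/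

omit [DecidableEq V] in
theorem rtg_mono {R Q : V → V → Prop} {a b : V} (f : ∀ x y, R x y → Q x y)
    (h : ReflTransGen R a b) : ReflTransGen Q a b := by
  induction h with
  | refl => exact ReflTransGen.refl
  | tail _ hbc ih => exact ih.tail (f _ _ hbc)

omit [DecidableEq V] in
theorem ConnOn_symm {E : Finset (V × V)} {X : Set V} {x y : V}
    (h : ReflTransGen (fun a b => a ∈ X ∧ b ∈ X ∧ Adj E a b) x y) :
    ReflTransGen (fun a b => a ∈ X ∧ b ∈ X ∧ Adj E a b) y x := by
  induction h with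
  | refl => exact ReflTransGen.refl
  | tail _ hbc ih => exact ReflTransGen.head ⟨hbc.2.1, hbc.1, hbc.2.2.symm⟩ ih

theorem ear_bc {W : Finset V} {F : Finset (V × V)} {u u' : V} {l : List V}
    (hu : u ∈ W) (hu' : u' ∈ W) (hne : u ≠ u') (hl : l.Nodup) (hlW : ∀ x ∈ l, x ∉ W)
    (hbc : ∀ v, ConnOn F ((W : Set V) \ {v})) (v : V) :
    ConnOn (F ∪ arcs (u :: (l ++ [u']))) (((W ∪ l.toFinset : Finset V) : Set V) \ {v}) := by
  set F' := F ∪ arcs (u :: (l ++ [u'])) with hF'
  set X : Set V := ((W ∪ l.toFinset : Finset V) : Set V) \ {v} with hX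
  have hmem : ∀ x, x ∈ X ↔ (x ∈ W ∨ x ∈ l) ∧ x ≠ v := by
    intro x
    rw [hX]
    simp
  have claim1 : ∀ x ∈ (W : Set V) \ {v}, ∀ y ∈ (W : Set V) \ {v},
      ReflTransGen (fun a b => a ∈ X ∧ b ∈ X ∧ Adj F' a b) x y := by
    intro x hx y hy
    refine rtg_mono ?_ (hbc v x hx y hy)
    rintro a b ⟨ha, hb, hab⟩
    refine ⟨(hmem a).2 ⟨Or.inl ha.1, ha.2⟩, (hmem b).2 ⟨Or.inl hb.1, hb.2⟩, ?_⟩
    rcases hab with h | h
    · exact Or.inl (Finset.mem_union_left _ h)
    · exact Or.inr (Finset.mem_union_left _ h)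
  have hch := arcs_chain (u :: (l ++ [u']))
  have claim2 : ∀ x ∈ X, ∃ y ∈ (W : Set V) \ {v},
      ReflTransGen (fun a b => a ∈ X ∧ b ∈ X ∧ Adj F' a b) x y := by
    intro x hx
    rw [hmem] at hx
    obtain ⟨hx1 | hx1, hxv⟩ := hx
    · exact ⟨x, ⟨hx1, hxv⟩, ReflTransGen.refl⟩
    obtain ⟨l1, l2, rfl⟩ := List.append_of_mem hx1
    rw [List.nodup_append] at hl
    obtain ⟨hl1, hl2, hl3⟩ := hl
    by_cases hA : v ≠ u ∧ v ∉ l1
    · refine ⟨u, ⟨hu, hA.1.symm⟩, ConnOn_symm ?_⟩
      have h1 : (u :: (l1 ++ [x])).IsChain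
          (fun a b => (a, b) ∈ arcs (u :: ((l1 ++ x :: l2) ++ [u']))) :=
        chain_init hch (l2 ++ [u']) (by simp)
      refine rtg_first_last (chain_of_mem h1 ?_)
      have h2 : ∀ a ∈ u :: (l1 ++ [x]), a ∈ X := by
        intro a ha
        rw [hmem]
        simp only [List.mem_cons, List.mem_append, List.not_mem_nil, or_false] at ha
        rcases ha with rfl | ha | rfl
        · exact ⟨Or.inl hu, hA.1.symm⟩
        · exact ⟨Or.inr (by simp [ha]), fun h => hA.2 (h ▸ ha)⟩
        · exact ⟨Or.inr (by simp), hxv⟩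
      intro a ha b hb hab
      exact ⟨h2 a ha, h2 b hb, Or.inl (Finset.mem_union_right _ hab)⟩
    · have hB : v ≠ u' ∧ v ∉ l2 := by
        rw [not_and_or, not_not, not_not] at hA
        rcases hA with hA | hA
        · subst hA
          refine ⟨hne, fun h => hlW v ?_ hu⟩
          simp [h]
        · refine ⟨fun h => hlW v ?_ (h ▸ hu'), fun h => hl3 v hA v ?_ rfl⟩
          · simp [hA]
          · simp [h]
      refine ⟨u', ⟨hu', hB.1.symm⟩, ?_⟩
      have h1 : (x :: (l2 ++ [u'])).IsChain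
          (fun a b => (a, b) ∈ arcs (u :: ((l1 ++ x :: l2) ++ [u']))) :=
        hch.suffix ⟨u :: l1, by simp⟩
      refine rtg_first_last (chain_of_mem h1 ?_)
      have h2 : ∀ a ∈ x :: (l2 ++ [u']), a ∈ X := by
        intro a ha
        rw [hmem]
        simp only [List.mem_cons, List.mem_append, List.not_mem_nil, or_false] at ha
        rcases ha with rfl | ha | rfl
        · exact ⟨Or.inr (by simp), hxv⟩
        · exact ⟨Or.inr (by simp [ha]), fun h => hB.2 (h ▸ ha)⟩
        · exact ⟨Or.inl hu', hB.1.symm⟩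
      intro a ha b hb hab
      exact ⟨h2 a ha, h2 b hb, Or.inl (Finset.mem_union_right _ hab)⟩
  intro x hx y hy
  obtain ⟨x', hx', hxx'⟩ := claim2 x hx
  obtain ⟨y', hy', hyy'⟩ := claim2 y hy
  exact (hxx'.trans (claim1 x' hx' y' hy')).trans (ConnOn_symm hyy')

theorem ear_sc {W : Finset V} {F : Finset (V × V)} {u u' : V} {l : List V}
    (hu : u ∈ W) (hu' : u' ∈ W)
    (hsc : ∀ x ∈ W, ∀ y ∈ W,
      ReflTransGen (fun a b => (a, b) ∈ F ∪ arcs (u :: (l ++ [u']))) x y) :
    ∀ x ∈ W ∪ l.toFinset, ∀ y ∈ W ∪ l.toFinset,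
      ReflTransGen (fun a b => (a, b) ∈ F ∪ arcs (u :: (l ++ [u']))) x y := by
  set F' := F ∪ arcs (u :: (l ++ [u'])) with hF'
  have hch : (u :: (l ++ [u'])).IsChain (fun a b => (a, b) ∈ F') :=
    (arcs_chain (u :: (l ++ [u']))).imp fun a b h => Finset.mem_union_right _ h
  have h1 : ∀ x ∈ W ∪ l.toFinset, ReflTransGen (fun a b => (a, b) ∈ F') x u' := by
    intro x hx
    rw [Finset.mem_union, List.mem_toFinset] at hx
    rcases hx with hx | hx
    · exact hsc x hx u' hu'
    · obtain ⟨l1, l2, rfl⟩ := List.append_of_mem hx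
      exact rtg_first_last (hch.suffix ⟨u :: l1, by simp⟩ : (x :: (l2 ++ [u'])).IsChain _)
  have h2 : ∀ x ∈ W ∪ l.toFinset, ReflTransGen (fun a b => (a, b) ∈ F') u x := by
    intro x hx
    rw [Finset.mem_union, List.mem_toFinset] at hx
    rcases hx with hx | hx
    · exact hsc u hu x hx
    · obtain ⟨l1, l2, rfl⟩ := List.append_of_mem hx
      exact rtg_first_last (chain_init hch (l2 ++ [u']) (by simp) : (u :: (l1 ++ [x])).IsChain _)
  intro x hx y hy
  exact ((h1 x hx).trans (hsc u' hu' u hu)).trans (h2 y hy)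

/-! ### existence of an open ear -/

theorem exists_ear {E : Finset (V × V)} (hE : StronglyBiconnected E) {W : Finset V}
    (hW : ∃ x ∈ W, ∃ y ∈ W, x ≠ y) (hW' : ∃ w, w ∉ W) :
    ∃ u ∈ W, ∃ u' ∈ W, u ≠ u' ∧ ∃ l : List V, l ≠ [] ∧ l.Nodup ∧ (∀ x ∈ l, x ∉ W) ∧
      (u :: (l ++ [u'])).IsChain (fun a b => (a, b) ∈ E) := by
  let O : V → V → Prop := fun a b => (a, b) ∈ E ∧ a ∉ W ∧ b ∉ W
  have henter : ∀ w ∉ W, ∃ u ∈ W, ∃ p ∉ W, (u, p) ∈ E ∧ ReflTransGen O p w := by
    intro w hw
    obtain ⟨x, hx, -⟩ := hW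
    have h : ∀ z, ReflTransGen (fun a b => (a, b) ∈ E) x z →
        z ∉ W → ∃ u ∈ W, ∃ p ∉ W, (u, p) ∈ E ∧ ReflTransGen O p z := by
      intro z hz
      induction hz with
      | refl => exact fun h => absurd hx h
      | @tail b c _ hbc ih =>
        intro hc
        by_cases hb : b ∈ W
        · exact ⟨b, hb, c, hc, hbc, ReflTransGen.refl⟩
        · obtain ⟨u, hu, p, hp, hup, hpb⟩ := ih hb
          exact ⟨u, hu, p, hp, hup, hpb.tail ⟨hbc, hb, hc⟩⟩
    exact h w (hE.1 x w) hw
  have hexit : ∀ w ∉ W, ∃ u' ∈ W, ∃ q ∉ W, ReflTransGen O w q ∧ (q, u') ∈ E := by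
    intro w hw
    obtain ⟨x, hx, -⟩ := hW
    have h : ∀ z, ReflTransGen (fun a b => (a, b) ∈ E) z x →
        z ∉ W → ∃ u' ∈ W, ∃ q ∉ W, ReflTransGen O z q ∧ (q, u') ∈ E := by
      intro z hz
      induction hz using ReflTransGen.head_induction_on with
      | refl => exact fun h => absurd hx h
      | @head b c hbc _ ih =>
        intro hb
        by_cases hc : c ∈ W
        · exact ⟨c, hc, b, hb, ReflTransGen.refl, hbc⟩
        · obtain ⟨u, hu, q, hq, hcq, hqu⟩ := ih hc
          exact ⟨u, hu, q, hq, ReflTransGen.head ⟨hbc, hb, hc⟩ hcq, hqu⟩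
    exact h w (hE.1 w x) hw
  by_contra hno
  -- there is no open ear
  have hno' : ∀ u ∈ W, ∀ u' ∈ W, ∀ p ∉ W, ∀ q ∉ W, (u, p) ∈ E → ReflTransGen O p q →
      (q, u') ∈ E → u = u' := by
    intro u hu u' hu' p hp q hq hup hpq hqu'
    by_contra hne
    apply hno
    obtain ⟨l, h1, h2, h3⟩ := exists_nodup hpq
    refine ⟨u, hu, u', hu', hne, p :: l, by simp, h3, ?_, ?_⟩
    · intro x hx
      obtain ⟨l1, l2, h4⟩ := List.append_of_mem hx
      rcases l1 with _ | ⟨a, l1⟩
      · rw [List.nil_append, List.cons.injEq] at h4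
        rw [← h4.1]
        exact hp
      · rw [h4] at h1
        have h5 : ((a :: l1) ++ [x]).IsChain O := chain_init h1 l2 (by simp)
        have h6 := h5.rel_getLast_head_of_append (by simp) (by simp)
        exact h6.2.2
    · have h4 : (p :: l).IsChain (fun a b => (a, b) ∈ E) := h1.imp fun a b h => h.1
      rw [List.cons_append, List.isChain_cons_cons]
      refine ⟨hup, ?_⟩
      rw [← List.cons_append, List.isChain_append]
      refine ⟨h4, by simp, ?_⟩
      intro x hx y hy
      rw [List.getLast?_eq_getLast_of_ne_nil (by simp), h2] at hx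
      simp only [Option.mem_def, Option.some.injEq, List.head?_cons] at hx hy
      rw [← hx, ← hy]
      exact hqu'
  obtain ⟨w0, hw0⟩ := hW'
  obtain ⟨u0, hu0, p0, hp0, hup0, hpw0⟩ := henter w0 hw0
  -- the class of `u0`
  let C : Set V := {w | w ∉ W ∧ ∃ p ∉ W, (u0, p) ∈ E ∧ ReflTransGen O p w}
  have hC0 : w0 ∈ C := ⟨hw0, p0, hp0, hup0, hpw0⟩
  have hclosed : ∀ w ∈ C, ∀ z, z ≠ u0 → Adj E w z → z ∈ C := by
    rintro w ⟨hw, p, hp, hup, hpw⟩ z hz hwz
    by_cases hzW : z ∈ W
    · exfalso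
      rcases hwz with h | h
      · exact hz (hno' u0 hu0 z hzW p hp w hw hup hpw h).symm
      · obtain ⟨u', hu', q, hq, hwq, hqu'⟩ := hexit w hw
        have h1 := hno' u0 hu0 u' hu' p hp q hq hup (hpw.trans hwq) hqu'
        have h2 := hno' z hzW u' hu' w hw q hq h hwq hqu'
        exact hz (h2.trans h1.symm)
    · rcases hwz with h | h
      · exact ⟨hzW, p, hp, hup, hpw.tail ⟨h, hw, hzW⟩⟩
      · obtain ⟨u1, hu1, p1, hp1, hup1, hpz⟩ := henter z hzW
        obtain ⟨u', hu', q, hq, hwq, hqu'⟩ := hexit w hw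
        have h1 := hno' u0 hu0 u' hu' p hp q hq hup (hpw.trans hwq) hqu'
        have h2 := hno' u1 hu1 u' hu' p1 hp1 q hq hup1
          ((hpz.tail ⟨h, hzW, hw⟩).trans hwq) hqu'
        have h3 : u1 = u0 := h2.trans h1.symm
        subst h3
        exact ⟨hzW, p1, hp1, hup1, hpz⟩
  obtain ⟨w1, hw1, hw1u⟩ : ∃ w1 ∈ W, w1 ≠ u0 := by
    obtain ⟨x, hx, y, hy, hxy⟩ := hW
    by_cases h : x = u0
    · exact ⟨y, hy, fun h' => hxy (h.trans h'.symm)⟩
    · exact ⟨x, hx, h⟩
  have hconn := hE.2 u0 w0 (by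
    intro h
    rw [Set.mem_singleton_iff] at h
    exact hw0 (h ▸ hu0)) w1 (by simpa using hw1u)
  have hfin : ∀ z, ReflTransGen (fun a b => a ∈ ({u0}ᶜ : Set V) ∧ b ∈ ({u0}ᶜ : Set V) ∧
      Adj E a b) w0 z → z ∈ C := by
    intro z hz
    induction hz with
    | refl => exact hC0
    | tail _ hbc ih => exact hclosed _ ih _ (by simpa using hbc.2.1) hbc.2.2
  exact (hfin w1 hconn).1 hw1

/-! ### growing a good subdigraph -/

/-- `(W, F)` is a strongly biconnected subdigraph with at most `2|W| - 3` arcs -/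
def Good (E : Finset (V × V)) (W : Finset V) (F : Finset (V × V)) : Prop :=
  F ⊆ E ∧ (∀ x ∈ W, ∀ y ∈ W, ReflTransGen (fun a b => (a, b) ∈ F) x y) ∧
    (∀ v, ConnOn F ((W : Set V) \ {v})) ∧ F.card + 3 ≤ 2 * W.card ∧ ∃ x ∈ W, ∃ y ∈ W, x ≠ y

theorem card_ear {W : Finset V} {F : Finset (V × V)} {u u' : V} {l : List V}
    (hl : l.Nodup) (hlW : ∀ x ∈ l, x ∉ W) :
    (W ∪ l.toFinset).card = W.card + l.length ∧
      (F ∪ arcs (u :: (l ++ [u']))).card ≤ F.card + (l.length + 1) := by
  constructor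
  · rw [Finset.card_union_of_disjoint, List.toFinset_card_of_nodup hl]
    rw [Finset.disjoint_left]
    intro a ha ha'
    exact hlW a (List.mem_toFinset.1 ha') ha
  · refine (Finset.card_union_le _ _).trans ?_
    have := arcs_card (u :: (l ++ [u']))
    simp only [List.length_cons, List.length_append, List.length_nil] at this
    omega

theorem grow {E : Finset (V × V)} (hE : StronglyBiconnected E) {W : Finset V}
    {F : Finset (V × V)} (h : Good E W F) (hW' : ∃ w, w ∉ W) :
    ∃ W' F', Good E W' F' ∧ W.card < W'.card := by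
  obtain ⟨h1, h2, h3, h4, h5⟩ := h
  obtain ⟨u, hu, u', hu', hne, l, hl0, hl, hlW, hch⟩ := exists_ear hE h5 hW'
  obtain ⟨hc1, hc2⟩ := card_ear (F := F) (u := u) (u' := u') hl hlW
  have hpos : 1 ≤ l.length := List.length_pos_iff.2 hl0
  refine ⟨W ∪ l.toFinset, F ∪ arcs (u :: (l ++ [u'])), ⟨?_, ?_, ?_, ?_, ?_⟩, by omega⟩
  · exact Finset.union_subset h1 (arcs_subset hch)
  · refine ear_sc hu hu' ?_
    intro x hx y hy
    exact rtg_mono (fun a b hab => Finset.mem_union_left _ hab) (h2 x hx y hy)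
  · exact ear_bc hu hu' hne hl hlW h3
  · omega
  · obtain ⟨x, hx, y, hy, hxy⟩ := h5
    exact ⟨x, Finset.mem_union_left _ hx, y, Finset.mem_union_left _ hy, hxy⟩

theorem start {E : Finset (V × V)} {a b : V} (hab : a ≠ b) (habE : (a, b) ∈ E) {l : List V}
    (hl0 : l ≠ []) (hl : l.Nodup) (hla : a ∉ l) (hlb : b ∉ l)
    (hch : (b :: (l ++ [a])).IsChain (fun x y => (x, y) ∈ E)) :
    ∃ W F, Good E W F := by
  have hlW : ∀ x ∈ l, x ∉ ({a, b} : Finset V) := by
    intro x hx h
    rw [Finset.mem_insert, Finset.mem_singleton] at h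
    rcases h with rfl | rfl
    · exact hla hx
    · exact hlb hx
  obtain ⟨hc1, hc2⟩ := card_ear (W := {a, b}) (F := {(a, b)}) (u := b) (u' := a) hl hlW
  rw [Finset.card_pair hab] at hc1
  rw [Finset.card_singleton] at hc2
  have hpos : 1 ≤ l.length := List.length_pos_iff.2 hl0
  refine ⟨{a, b} ∪ l.toFinset, {(a, b)} ∪ arcs (b :: (l ++ [a])), ?_, ?_, ?_, by omega, ?_⟩
  · exact Finset.union_subset (by simpa using habE) (arcs_subset hch)
  · refine ear_sc (by simp) (by simp) ?_
    have hab' : ReflTransGen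
        (fun x y => (x, y) ∈ ({(a, b)} : Finset (V × V)) ∪ arcs (b :: (l ++ [a]))) a b :=
      ReflTransGen.single (by simp)
    have hba' : ReflTransGen
        (fun x y => (x, y) ∈ ({(a, b)} : Finset (V × V)) ∪ arcs (b :: (l ++ [a]))) b a := by
      refine rtg_first_last (l := l) ?_
      exact (arcs_chain _).imp fun x y h => Finset.mem_union_right _ h
    intro x hx y hy
    rw [Finset.mem_insert, Finset.mem_singleton] at hx hy
    rcases hx with rfl | rfl <;> rcases hy with rfl | rfl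
    · exact ReflTransGen.refl
    · exact hab'
    · exact hba'
    · exact ReflTransGen.refl
  · refine ear_bc (by simp) (by simp) hab.symm hl hlW ?_
    intro v x hx y hy
    simp only [Finset.coe_insert, Finset.coe_singleton, Set.mem_sdiff, Set.mem_insert_iff,
      Set.mem_singleton_iff] at hx hy
    obtain ⟨hx1 | hx1, hx2⟩ := hx <;> obtain ⟨hy1 | hy1, hy2⟩ := hy
    · rw [hx1, hy1]
    · refine ReflTransGen.single ⟨?_, ?_, Or.inl ?_⟩ <;> simp [hx1, hy1] <;> grind
    · refine ReflTransGen.single ⟨?_, ?_, Or.inr ?_⟩ <;> simp [hx1, hy1] <;> grind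
    · rw [hx1, hy1]
  · exact ⟨a, by simp, b, by simp, hab⟩

/-- existence of a good start -/
theorem exists_good [Fintype V] {E : Finset (V × V)} (hE : StronglyBiconnected E)
    (hloop : ∀ x, (x, x) ∉ E) (hn : 3 ≤ Fintype.card V) : ∃ W F, Good E W F := by
  obtain ⟨x, y, hxy⟩ : ∃ x y : V, x ≠ y := by
    have : Nontrivial V := Fintype.one_lt_card_iff_nontrivial.1 (by omega)
    exact exists_pair_ne V
  obtain ⟨z, hxz⟩ : ∃ z, (x, z) ∈ E := by
    rcases ReflTransGen.cases_head (hE.1 x y) with h | ⟨z, hz, -⟩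
    · exact absurd h hxy
    · exact ⟨z, hz⟩
  have hne : x ≠ z := fun h => hloop x (by rw [← h] at hxz; exact hxz)
  by_cases hzx : (z, x) ∈ E
  · have hout : ∃ w, w ∉ ({x, z} : Finset V) := by
      by_contra hcon
      push Not at hcon
      have h1 : (Finset.univ : Finset V) ⊆ {x, z} := fun w _ => hcon w
      have h2 := Finset.card_le_card h1
      rw [Finset.card_univ, Finset.card_pair hne] at h2
      omega
    obtain ⟨u, hu, u', hu', huu, l, hl0, hl, hlW, hch⟩ :=
      exists_ear hE ⟨x, by simp, z, by simp, hne⟩ hout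
    have hE' : (u', u) ∈ E := by
      rw [Finset.mem_insert, Finset.mem_singleton] at hu hu'
      rcases hu with rfl | rfl <;> rcases hu' with rfl | rfl
      · exact absurd rfl huu
      · exact hzx
      · exact hxz
      · exact absurd rfl huu
    exact start huu.symm hE' hl0 hl (fun h => hlW _ h hu') (fun h => hlW _ h hu) hch
  · obtain ⟨l, h1, h2, h3⟩ := exists_nodup (hE.1 z x)
    rcases List.eq_nil_or_concat l with rfl | ⟨l', w, rfl⟩
    · exact absurd h2.symm hne
    · rw [List.concat_eq_append] at h1 h2 h3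
      have hw : w = x := by simpa using h2
      subst hw
      have hnd : l'.Nodup ∧ w ∉ l' ∧ z ∉ l' := by
        rw [List.nodup_cons, List.nodup_append] at h3
        refine ⟨h3.2.1, fun h => h3.2.2.2 w h w (by simp) rfl, fun h => h3.1 (by simp [h])⟩
      refine start hne hxz (l := l') ?_ hnd.1 hnd.2.1 hnd.2.2 h1
      rintro rfl
      simp only [List.nil_append, List.isChain_cons_cons] at h1
      exact hzx h1.1

theorem exists_spanning [Fintype V] {E : Finset (V × V)} (hE : StronglyBiconnected E)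
    (hloop : ∀ x, (x, x) ∉ E) (hn : 3 ≤ Fintype.card V) : ∃ F, Good E Finset.univ F := by
  have key : ∀ k, ∀ W F, Good E W F → Fintype.card V ≤ W.card + k →
      ∃ F, Good E Finset.univ F := by
    intro k
    induction k with
    | zero =>
      intro W F h hk
      have : W = Finset.univ := by
        rw [← Finset.card_eq_iff_eq_univ]
        exact le_antisymm (Finset.card_le_univ _) (by omega)
      subst this
      exact ⟨F, h⟩
    | succ k ih =>
      intro W F h hk
      by_cases hW : ∃ w, w ∉ W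
      · obtain ⟨W', F', h', hlt⟩ := grow hE h hW
        exact ih W' F' h' (by omega)
      · push Not at hW
        have : W = Finset.univ := Finset.eq_univ_iff_forall.2 hW
        subst this
        exact ⟨F, h⟩
  obtain ⟨W, F, h⟩ := exists_good hE hloop hn
  exact key _ W F h (Nat.le_add_left _ _)

omit [DecidableEq V] in
theorem SB_mono {E F : Finset (V × V)} (h : F ⊆ E) (hF : StronglyBiconnected F) :
    StronglyBiconnected E := by
  refine ⟨fun x y => rtg_mono (fun a b hab => h hab) (hF.1 x y), fun v x hx y hy =>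
    rtg_mono ?_ (hF.2 v x hx y hy)⟩
  rintro a b ⟨ha, hb, hab⟩
  exact ⟨ha, hb, hab.imp (fun h' => h h') (fun h' => h h')⟩

theorem upper3 [Fintype V] {E : Finset (V × V)} (hE : IsMinimal E) (hloop : ∀ x, (x, x) ∉ E)
    (hn : 3 ≤ Fintype.card V) : E.card + 3 ≤ 2 * Fintype.card V := by
  obtain ⟨F, hFE, h2, h3, h4, -⟩ := exists_spanning hE.1 hloop hn
  have hF : StronglyBiconnected F := by
    refine ⟨fun x y => h2 x (Finset.mem_univ _) y (Finset.mem_univ _), fun v => ?_⟩
    have := h3 v
    rwa [Finset.coe_univ, ← Set.compl_eq_univ_sdiff] at this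
  have hEF : E = F := by
    by_contra hne
    obtain ⟨e, heE, heF⟩ : ∃ e ∈ E, e ∉ F := by
      by_contra hcon
      push Not at hcon
      exact hne (Finset.Subset.antisymm hcon hFE)
    refine hE.2 e heE (SB_mono ?_ hF)
    intro f hf
    exact Finset.mem_erase.2 ⟨fun h => heF (h ▸ hf), hFE hf⟩
  rw [hEF]
  rwa [Finset.card_univ] at h4

/-! ### sharpness -/

/-- the arcs `0 → 1`, `1 → i`, `i → 0` (`i ≥ 2`) on `Fin (m + 3)` -/
def bookArcs (m : ℕ) : Finset (Fin (m + 3) × Fin (m + 3)) :=
  {(0, 1)} ∪ (Finset.univ.image (fun i : Fin (m + 1) => ((1 : Fin (m + 3)), i.succ.succ)) ∪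
    Finset.univ.image (fun i : Fin (m + 1) => (i.succ.succ, (0 : Fin (m + 3)))))

theorem mem_book {m : ℕ} {a b : Fin (m + 3)} : (a, b) ∈ bookArcs m ↔
    (a = 0 ∧ b = 1) ∨ (a = 1 ∧ b ≠ 0 ∧ b ≠ 1) ∨ (b = 0 ∧ a ≠ 0 ∧ a ≠ 1) := by
  have key : ∀ b : Fin (m + 3), (∃ i : Fin (m + 1), i.succ.succ = b) ↔ b ≠ 0 ∧ b ≠ 1 := by
    intro b
    constructor
    · rintro ⟨i, rfl⟩
      constructor
      · exact Fin.succ_ne_zero _
      · intro h
        have := congrArg Fin.val h
        simp at this
    · rintro ⟨h0, h1⟩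
      have h0' : b.val ≠ 0 := fun h => h0 (Fin.ext h)
      have h1' : b.val ≠ 1 := fun h => h1 (Fin.ext h)
      refine ⟨⟨b.val - 2, by omega⟩, Fin.ext ?_⟩
      simp only [Fin.val_succ]
      omega
  simp only [bookArcs, Finset.mem_union, Finset.mem_singleton, Prod.mk.injEq, Finset.mem_image,
    Finset.mem_univ, true_and]
  constructor
  · rintro (h | ⟨i, h1, h2⟩ | ⟨i, h1, h2⟩)
    · exact Or.inl h
    · exact Or.inr (Or.inl ⟨h1.symm, (key b).1 ⟨i, h2⟩⟩)
    · exact Or.inr (Or.inr ⟨h2.symm, (key a).1 ⟨i, h1⟩⟩)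
  · rintro (h | ⟨h1, h2⟩ | ⟨h1, h2⟩)
    · exact Or.inl h
    · obtain ⟨i, hi⟩ := (key b).2 h2
      exact Or.inr (Or.inl ⟨i, h1.symm, hi⟩)
    · obtain ⟨i, hi⟩ := (key a).2 h2
      exact Or.inr (Or.inr ⟨i, hi, h1.symm⟩)

theorem book_card (m : ℕ) : (bookArcs m).card = 2 * (m + 3) - 3 := by
  have h1 : Function.Injective (fun i : Fin (m + 1) => ((1 : Fin (m + 3)), i.succ.succ)) := by
    intro i j h
    simpa using h
  have h2 : Function.Injective (fun i : Fin (m + 1) => (i.succ.succ, (0 : Fin (m + 3)))) := by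
    intro i j h
    simpa using h
  rw [bookArcs, Finset.card_union_of_disjoint, Finset.card_union_of_disjoint,
    Finset.card_image_of_injective _ h1, Finset.card_image_of_injective _ h2]
  · simp
    omega
  · rw [Finset.disjoint_left]
    rintro ⟨a, b⟩ h h'
    simp only [Finset.mem_image, Finset.mem_univ, true_and, Prod.mk.injEq] at h h'
    obtain ⟨i, -, hi⟩ := h
    obtain ⟨j, -, hj⟩ := h'
    rw [← hj] at hi
    exact Fin.succ_ne_zero _ hi
  · rw [Finset.disjoint_left]
    rintro ⟨a, b⟩ h h'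
    simp only [Finset.mem_singleton, Finset.mem_union, Finset.mem_image, Finset.mem_univ,
      true_and, Prod.mk.injEq] at h h'
    obtain ⟨rfl, rfl⟩ := h
    rcases h' with ⟨i, hi, -⟩ | ⟨i, -, hi⟩
    · exact absurd hi (by simp)
    · exact absurd hi (by simp)

theorem one_ne_zero' (m : ℕ) : (1 : Fin (m + 3)) ≠ 0 := by simp

theorem book_SC (m : ℕ) : StronglyConnected (bookArcs m) := by
  have h01 : ReflTransGen (fun a b => (a, b) ∈ bookArcs m) 0 1 :=
    ReflTransGen.single (mem_book.2 (Or.inl ⟨rfl, rfl⟩))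
  have hto : ∀ x, ReflTransGen (fun a b => (a, b) ∈ bookArcs m) x 0 := by
    intro x
    by_cases h0 : x = 0
    · rw [h0]
    · by_cases h1 : x = 1
      · subst h1
        have h2 : (⟨2, by omega⟩ : Fin (m + 3)) ≠ 0 ∧ (⟨2, by omega⟩ : Fin (m + 3)) ≠ 1 := by
          constructor
          · intro h
            have := congrArg Fin.val h
            simp at this
          · intro h
            have := congrArg Fin.val h
            simp at this
        exact (ReflTransGen.single (mem_book.2 (Or.inr (Or.inl ⟨rfl, h2⟩)))).tail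
          (mem_book.2 (Or.inr (Or.inr ⟨rfl, h2⟩)))
      · exact ReflTransGen.single (mem_book.2 (Or.inr (Or.inr ⟨rfl, h0, h1⟩)))
  have hfrom : ∀ x, ReflTransGen (fun a b => (a, b) ∈ bookArcs m) 0 x := by
    intro x
    by_cases h0 : x = 0
    · rw [h0]
    · by_cases h1 : x = 1
      · subst h1
        exact h01
      · exact h01.tail (mem_book.2 (Or.inr (Or.inl ⟨rfl, h0, h1⟩)))
  exact fun x y => (hto x).trans (hfrom y)

theorem book_SB (m : ℕ) : StronglyBiconnected (bookArcs m) := by
  refine ⟨book_SC m, ?_⟩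
  intro v
  -- a centre: a vertex different from `v` adjacent to all the others
  obtain ⟨c, hcv, hc⟩ : ∃ c : Fin (m + 3), c ≠ v ∧ ∀ x, x ≠ v → x ≠ c →
      Adj (bookArcs m) x c := by
    by_cases hv : v = 0
    · subst hv
      refine ⟨1, one_ne_zero' m, ?_⟩
      intro x h0 h1
      exact Or.inr (mem_book.2 (Or.inr (Or.inl ⟨rfl, h0, h1⟩)))
    · refine ⟨0, fun h => hv h.symm, ?_⟩
      intro x _ h0
      by_cases h1 : x = 1
      · exact Or.inr (mem_book.2 (Or.inl ⟨rfl, h1⟩))
      · exact Or.inl (mem_book.2 (Or.inr (Or.inr ⟨rfl, h0, h1⟩)))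
  have hto : ∀ x ∈ ({v}ᶜ : Set (Fin (m + 3))),
      ReflTransGen (fun a b => a ∈ ({v}ᶜ : Set (Fin (m + 3))) ∧ b ∈ ({v}ᶜ : Set (Fin (m + 3))) ∧
        Adj (bookArcs m) a b) x c := by
    intro x hx
    by_cases hxc : x = c
    · rw [hxc]
    · exact ReflTransGen.single ⟨hx, by simpa using hcv, hc x (by simpa using hx) hxc⟩
  intro x hx y hy
  exact (hto x hx).trans (ConnOn_symm (hto y hy))

theorem book_min (m : ℕ) : IsMinimal (bookArcs m) := by
  refine ⟨book_SB m, ?_⟩
  rintro ⟨a, b⟩ he ⟨hsc, -⟩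
  rcases mem_book.1 he with ⟨ha, hb⟩ | ⟨ha, hb, hb'⟩ | ⟨hb, ha, ha'⟩
  · subst ha hb
    rcases ReflTransGen.cases_tail (hsc 0 1) with h | ⟨c, -, hc⟩
    · exact one_ne_zero' m h
    · rw [Finset.mem_erase, mem_book] at hc
      obtain ⟨hc1, hc2⟩ := hc
      rcases hc2 with ⟨h, -⟩ | ⟨-, -, h⟩ | ⟨h, -⟩
      · exact hc1 (by rw [h])
      · exact h rfl
      · exact one_ne_zero' m h
  · subst ha
    rcases ReflTransGen.cases_tail (hsc 0 b) with h | ⟨c, -, hc⟩
    · exact hb h
    · rw [Finset.mem_erase, mem_book] at hc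
      obtain ⟨hc1, hc2⟩ := hc
      rcases hc2 with ⟨-, h⟩ | ⟨h, -, -⟩ | ⟨h, -⟩
      · exact hb' h
      · exact hc1 (by rw [h])
      · exact hb h
  · subst hb
    rcases ReflTransGen.cases_head (hsc a 0) with h | ⟨c, hc, -⟩
    · exact ha h
    · rw [Finset.mem_erase, mem_book] at hc
      obtain ⟨hc1, hc2⟩ := hc
      rcases hc2 with ⟨h, -⟩ | ⟨h, -, -⟩ | ⟨h, -⟩
      · exact ha h
      · exact ha' h
      · exact hc1 (by rw [h])

theorem book_loop (m : ℕ) (x : Fin (m + 3)) : (x, x) ∉ bookArcs m := by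
  intro h
  rcases mem_book.1 h with ⟨h1, h2⟩ | ⟨h1, -, h2⟩ | ⟨h1, h2, -⟩
  · exact one_ne_zero' m (h2.symm.trans h1)
  · exact h2 h1
  · exact h2 h1

/-- **MP_5e4462_co, Q1.** Every minimal strongly biconnected digraph with `n` vertices has at most
`2n` arcs; in fact at most `2n - 2` arcs, and at most `2n - 3` arcs if `n ≥ 3`. The bound `2n - 3`
is attained for every `n ≥ 3`. -/
theorem result :
    (∀ (V : Type u) [Fintype V] [DecidableEq V] (E : Finset (V × V)), (∀ x, (x, x) ∉ E) →
      IsMinimal E →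
      E.card ≤ 2 * Fintype.card V ∧ E.card ≤ 2 * Fintype.card V - 2 ∧
        (3 ≤ Fintype.card V → E.card ≤ 2 * Fintype.card V - 3)) ∧
    (∀ n : ℕ, 3 ≤ n → ∃ E : Finset (Fin n × Fin n), (∀ x, (x, x) ∉ E) ∧ IsMinimal E ∧
      E.card = 2 * n - 3) := by
  constructor
  · intro V _ _ E hloop hE
    have h3 : 3 ≤ Fintype.card V → E.card ≤ 2 * Fintype.card V - 3 := by
      intro hn
      have := upper3 hE hloop hn
      omega
    have h2 : E.card ≤ 2 * Fintype.card V - 2 := by
      by_cases hn : 3 ≤ Fintype.card V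
      · have := h3 hn
        omega
      · have hsub : E ⊆ (Finset.univ : Finset V).offDiag := by
          rintro ⟨a, b⟩ he
          rw [Finset.mem_offDiag]
          refine ⟨Finset.mem_univ _, Finset.mem_univ _, ?_⟩
          rintro h
          simp only at h
          subst h
          exact hloop a he
        have := Finset.card_le_card hsub
        rw [Finset.offDiag_card, Finset.card_univ] at this
        have hn' : Fintype.card V = 0 ∨ Fintype.card V = 1 ∨ Fintype.card V = 2 := by omega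
        rcases hn' with h | h | h <;> rw [h] at this ⊢ <;> omega
    exact ⟨by omega, h2, h3⟩
  · intro n hn
    obtain ⟨m, rfl⟩ : ∃ m, n = m + 3 := ⟨n - 3, by omega⟩
    exact ⟨bookArcs m, book_loop m, book_min m, book_card m⟩

end Pool.Agent.Results.MP_5e4462_co.MinimalArcs
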